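import Pool.Agent.H41.Op5

set_option autoImplicit false

open Pool.Agent.H41.Op Polynomial Filter Topology

theorem Pool.Agent.Results.MP_83ec3d_an.Fails.result :
    ∃ ω : ℕ → ℝ, ω 0 = 1 ∧ (∀ k, 0 < ω k) ∧
      Tendsto (fun k => ω k / ω (k + 1)) atTop (𝓝 1) ∧ Antitone ω ∧
      IsCyclic ω ((X - C 1) ^ 2) ∧
      ∃ q : ℕ → ℂ[X], (∀ n, IsOPA ω ((X - C 1) ^ 2) n (q n)) ∧
        ¬TendstoUniformlyOn (fun n z => (1 - q n * (X - C 1) ^ 2).eval z) 0 atTop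
          (Metric.closedBall (0 : ℂ) 1 ∩ Metric.closedBall (-1) 1) :=
  main2
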